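import Pool.Agent.P.MP_2b4a47_lc.R3Red
import Pool.Agent.P.MP_2b4a47_lc.LowNP
import Pool.Agent.P.MP_2b4a47_lc.Line

open Pool.Agent.P.MP_2b4a47_lc in
/-- Geometric embeddability of `k`-complexes in `ℝ^d` is complete for the existential theory of
the reals if `3 ≤ d ≤ 2k ≤ 2d`, and lies in `NP` for all other positive `k`, `d`. -/
theorem Pool.Agent.Results.MP_2b4a47_lc.AllPairs.result (k d : ℕ) (hk : 0 < k) (hd : 0 < d) :
    (3 ≤ d ∧ d ≤ 2 * k ∧ k ≤ d →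
      N793a5b8e.IsCompleteFor Pool.Agent.Lib.ETR.ExistsR (EMB k d)) ∧
    (¬ (3 ≤ d ∧ d ≤ 2 * k ∧ k ≤ d) → EMB k d ∈ N68a2faeb.NP) ∧
    (2 * k < d ∨ d < k → EMB k d ∈ N68a2faeb.P) := by
  refine ⟨fun ⟨h1, h2, h3⟩ => ⟨emb_mem k d, ?_⟩, fun h => ?_, fun h => emb_easy (by omega)⟩
  · rcases h1.eq_or_lt with rfl | h1
    exacts [emb_hard3 (by omega) h3, emb_hard h1 h2 h3]
  · by_cases h' : d ≤ 2 * k ∧ k ≤ d
    · obtain rfl | rfl : d = 1 ∨ d = 2 := by omega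
      · obtain rfl : k = 1 := by omega
        exact emb_one_NP
      · exact emb_two_NP h'.2
    · exact P_sub_NP (emb_easy h')
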